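import Mathlib
import Pool.Agent.EMP.EMDefs
import Pool.Agent.EMP.Ground

/-!
Open operators with values in sets of intervals; preservation of a pair of hyperimmune sets
(boldface version), the basis lemma and the dichotomy lemma.
-/

namespace Pool.Agent.HT2

open Pool.Agent.EMP

/-- operators: from oracles to sets of intervals -/
abbrev Opr := Om → Set (ℕ × ℕ)

/-- membership only depends on a finite part of the oracle -/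
def OpenO (Ψ : Opr) : Prop := ∀ W ν, ν ∈ Ψ W → ∃ n, ∀ W', agr n W W' → ν ∈ Ψ W'

/-- enumeration with use `n` -/
def AtO (Ψ : Opr) (n : ℕ) (W : Om) : Set (ℕ × ℕ) := {ν | ∀ W', agr n W W' → ν ∈ Ψ W'}

lemma AtO_mono {Ψ : Opr} {n m : ℕ} (h : n ≤ m) (W : Om) : AtO Ψ n W ⊆ AtO Ψ m W :=
  fun _ hν W' hW' => hν W' (agr_mono h hW')

lemma AtO_congr {Ψ : Opr} {n : ℕ} {W W' : Om} (h : agr n W W') : AtO Ψ n W = AtO Ψ n W' := by
  ext ν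
  exact ⟨fun hν V hV => hν V (agr_trans h hV), fun hν V hV => hν V (agr_trans (agr_symm h) hV)⟩

lemma AtO_sub {Ψ : Opr} {n : ℕ} {W : Om} : AtO Ψ n W ⊆ Ψ W := fun _ hν => hν W (agr_refl n W)

lemma exists_AtO {Ψ : Opr} (hΨ : OpenO Ψ) {W : Om} {ν : ℕ × ℕ} (h : ν ∈ Ψ W) :
    ∃ n, ν ∈ AtO Ψ n W := hΨ W ν h

/-- intervals beyond every bound -/
def Unb (S : Set (ℕ × ℕ)) : Prop := ∀ b, ∃ p q, b ≤ p ∧ p < q ∧ (p, q) ∈ S

/-- an interval of colour `j` -/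
def Hits (g : ℕ → Bool) (j : Bool) (S : Set (ℕ × ℕ)) : Prop :=
  ∃ p q, p < q ∧ (p, q) ∈ S ∧ ∀ x, p ≤ x → x < q → g x = j

/-- the preserved property -/
def Gd (𝒞 : Set Opr) (g : ℕ → Bool) (W : Om) : Prop :=
  ∀ Ψ ∈ 𝒞, ∀ j, Unb (Ψ W) → Hits g j (Ψ W)

/-- operator for the basis lemma -/
def oW (Ψ D : Opr) : Opr := fun W =>
  {ν | ∀ P : Om, (AtO D ν.2 (jn W P)).Nonempty ∨
    ∃ p q, ν.1 ≤ p ∧ p < q ∧ q ≤ ν.2 ∧ (p, q) ∈ AtO Ψ ν.2 (jn W P)}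

lemma oW_open (Ψ D : Opr) : OpenO (oW Ψ D) := by
  intro W ν hν
  refine ⟨ν.2, fun W' hW' P => ?_⟩
  have hagr : agr ν.2 (jn W P) (jn W' P) := agr_jn' hW' (agr_refl _ P)
  rw [← AtO_congr hagr, ← AtO_congr hagr]
  exact hν P

/-- operator for the basis lemma -/
def oB (Ψ D : Opr) (b : ℕ) : Opr := fun W => D W ∪ {ν | b ≤ ν.1 ∧ ν.1 < ν.2 ∧ ν ∈ Ψ W}

lemma oB_open {Ψ D : Opr} (hΨ : OpenO Ψ) (hD : OpenO D) (b : ℕ) : OpenO (oB Ψ D b) := by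
  rintro W ν (h | ⟨h1, h2, h3⟩)
  · obtain ⟨n, hn⟩ := hD W ν h
    exact ⟨n, fun W' hW' => Or.inl (hn W' hW')⟩
  · obtain ⟨n, hn⟩ := hΨ W ν h3
    exact ⟨n, fun W' hW' => Or.inr ⟨h1, h2, hn W' hW'⟩⟩

/-- if the operator is unbounded on the whole class then it hits every colour on the whole class -/
lemma hits_all {𝒞 : Set Opr} {g : ℕ → Bool} (ho : ∀ Ψ ∈ 𝒞, OpenO Ψ)
    (hW : ∀ Ψ ∈ 𝒞, ∀ D ∈ 𝒞, oW Ψ D ∈ 𝒞) {W : Om} (hG : Gd 𝒞 g W) {Ψ D : Opr} (hΨ : Ψ ∈ 𝒞)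
    (hD : D ∈ 𝒞) (hun : ∀ P, D (jn W P) = ∅ → Unb (Ψ (jn W P))) (j : Bool) :
    ∀ P, D (jn W P) = ∅ → Hits g j (Ψ (jn W P)) := by
  have hU : Unb (oW Ψ D W) := by
    intro b
    obtain ⟨n, hn⟩ := compact_unif (O := fun n => {P : Om | (AtO D n (jn W P)).Nonempty ∨
        ∃ p q, b ≤ p ∧ p < q ∧ q ≤ n ∧ (p, q) ∈ AtO Ψ n (jn W P)})
      (by
        rintro n n' hnn' P (h | ⟨p, q, h1, h2, h3, h4⟩)
        · left; exact h.mono (AtO_mono hnn' _)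
        · right; exact ⟨p, q, h1, h2, h3.trans hnn', AtO_mono hnn' _ h4⟩)
      (by
        intro n P hP
        refine ⟨n, fun P' hP' => ?_⟩
        have hagr : agr n (jn W P) (jn W P') := agr_jn' (agr_refl _ _) hP'
        change (AtO D n (jn W P')).Nonempty ∨
          ∃ p q, b ≤ p ∧ p < q ∧ q ≤ n ∧ (p, q) ∈ AtO Ψ n (jn W P')
        rw [← AtO_congr hagr, ← AtO_congr hagr]
        exact hP)
      (by
        intro P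
        by_cases hP : D (jn W P) = ∅
        · obtain ⟨p, q, h1, h2, h3⟩ := hun P hP b
          obtain ⟨n, hn⟩ := exists_AtO (ho Ψ hΨ) h3
          exact ⟨max n q, Or.inr ⟨p, q, h1, h2, le_max_right _ _, AtO_mono (le_max_left _ _) _ hn⟩⟩
        · obtain ⟨ν, hν⟩ := Set.nonempty_iff_ne_empty.mpr hP
          obtain ⟨n, hn⟩ := exists_AtO (ho D hD) hν
          exact ⟨n, Or.inl ⟨ν, hn⟩⟩)
    refine ⟨b, max n (b + 1), le_rfl, by omega, fun P => ?_⟩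
    rcases hn P with h | ⟨p, q, h1, h2, h3, h4⟩
    · left; exact h.mono (AtO_mono (le_max_left _ _) _)
    · right; exact ⟨p, q, h1, h2, h3.trans (le_max_left _ _), AtO_mono (le_max_left _ _) _ h4⟩
  intro P hP
  obtain ⟨b, u, h1, h2, h3⟩ := hG _ (hW Ψ hΨ D hD) j hU
  rcases h2 P with h | ⟨p, q, h4, h5, h6, h7⟩
  · obtain ⟨ν, hν⟩ := h
    have := AtO_sub hν
    rw [hP] at this
    exact absurd this (Set.notMem_empty _)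
  · simp only at h4 h6
    exact ⟨p, q, h5, AtO_sub h7, fun x hx1 hx2 => h3 x (h4.trans hx1) (lt_of_lt_of_le hx2 h6)⟩

/-- basis lemma -/
theorem basis {𝒞 : Set Opr} {g : ℕ → Bool} (hc : 𝒞.Countable) (ho : ∀ Ψ ∈ 𝒞, OpenO Ψ)
    (hW : ∀ Ψ ∈ 𝒞, ∀ D ∈ 𝒞, oW Ψ D ∈ 𝒞) (hB : ∀ Ψ ∈ 𝒞, ∀ D ∈ 𝒞, ∀ b, oB Ψ D b ∈ 𝒞)
    {W : Om} (hG : Gd 𝒞 g W) {D : Opr} (hD : D ∈ 𝒞) (hne : ∃ P, D (jn W P) = ∅) :
    ∃ P, D (jn W P) = ∅ ∧ Gd 𝒞 g (jn W P) := by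
  classical
  have hcR : Countable (𝒞 × Bool) := by
    have : Countable 𝒞 := hc.to_subtype
    infer_instance
  have : Nonempty (𝒞 × Bool) := ⟨(⟨D, hD⟩, true)⟩
  obtain ⟨e, he⟩ := exists_surjective_nat (𝒞 × Bool)
  let T := {E : Opr // E ∈ 𝒞 ∧ ∃ P, E (jn W P) = ∅}
  have step : ∀ n : ℕ, ∀ E : T, ∃ E' : T, (∀ P, E'.1 (jn W P) = ∅ → E.1 (jn W P) = ∅) ∧
      ∀ P, E'.1 (jn W P) = ∅ → Unb ((e n).1.1 (jn W P)) → Hits g (e n).2 ((e n).1.1 (jn W P)) := by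
    intro n E
    by_cases hcase : ∃ P, E.1 (jn W P) = ∅ ∧ ¬ Unb ((e n).1.1 (jn W P))
    · obtain ⟨P, hP, hb⟩ := hcase
      unfold Unb at hb
      push Not at hb
      obtain ⟨b, hb⟩ := hb
      refine ⟨⟨oB (e n).1.1 E.1 b, hB _ (e n).1.2 _ E.2.1 b, P, ?_⟩, ?_, ?_⟩
      · unfold oB
        rw [hP, Set.empty_union]
        ext ν
        simp only [Set.mem_ofPred_eq, Set.mem_empty_iff_false, iff_false]
        rintro ⟨h1, h2, h3⟩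
        exact hb ν.1 ν.2 h1 h2 h3
      · intro P' hP'
        unfold oB at hP'
        exact (Set.union_empty_iff.mp hP').1
      · intro P' hP' hun
        exfalso
        unfold oB at hP'
        have h0 := (Set.union_empty_iff.mp hP').2
        obtain ⟨p, q, h1, h2, h3⟩ := hun b
        have : (p, q) ∈ {ν : ℕ × ℕ | b ≤ ν.1 ∧ ν.1 < ν.2 ∧ ν ∈ (e n).1.1 (jn W P')} :=
          ⟨h1, h2, h3⟩
        rw [h0] at this
        exact this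
    · push Not at hcase
      exact ⟨E, fun _ h => h, fun P hP _ => hits_all ho hW hG (e n).1.2 E.2.1 hcase _ P hP⟩
  choose nxt hn1 hn2 using step
  let c : ℕ → T := fun n => Nat.rec ⟨D, hD, hne⟩ (fun n p => nxt n p) n
  have hcs : ∀ n, c (n + 1) = nxt n (c n) := fun n => rfl
  obtain ⟨P, hP⟩ := compact_inter (C := fun n => {P | (c n).1 (jn W P) = ∅})
    (fun n P hP => hn1 n (c n) P (by rw [← hcs]; exact hP))
    (by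
      intro n P hP
      have hP : ¬ (c n).1 (jn W P) = ∅ := hP
      obtain ⟨ν, hν⟩ := Set.nonempty_iff_ne_empty.mpr hP
      obtain ⟨k, hk⟩ := ho _ (c n).2.1 _ _ hν
      refine ⟨k, fun P' hP' hcon => ?_⟩
      have h1 := hk _ (agr_jn' (agr_refl k W) hP')
      have hcon : (c n).1 (jn W P') = ∅ := hcon
      rw [hcon] at h1
      exact h1)
    (fun n => (c n).2.2)
  refine ⟨P, hP 0, ?_⟩
  intro Ψ hΨ j hU
  obtain ⟨n, hn⟩ := he (⟨Ψ, hΨ⟩, j)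
  have h1 := hn2 n (c n)
  rw [hn] at h1
  exact h1 P (by rw [← hcs]; exact hP (n + 1)) hU

/-- dichotomy lemma -/
theorem dich {𝒞 : Set Opr} {g : ℕ → Bool} (hc : 𝒞.Countable) (ho : ∀ Ψ ∈ 𝒞, OpenO Ψ)
    (hW : ∀ Ψ ∈ 𝒞, ∀ D ∈ 𝒞, oW Ψ D ∈ 𝒞) (hB : ∀ Ψ ∈ 𝒞, ∀ D ∈ 𝒞, ∀ b, oB Ψ D b ∈ 𝒞)
    {W : Om} (hG : Gd 𝒞 g W) {Ψ D : Opr} (hΨ : Ψ ∈ 𝒞) (hD : D ∈ 𝒞) :
    (∃ P, D (jn W P) = ∅ ∧ Gd 𝒞 g (jn W P) ∧ ¬ Unb (Ψ (jn W P))) ∨
    (∀ j P, D (jn W P) = ∅ → Hits g j (Ψ (jn W P))) := by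
  by_cases hcase : ∃ P, D (jn W P) = ∅ ∧ ¬ Unb (Ψ (jn W P))
  · left
    obtain ⟨P, hP, hb⟩ := hcase
    unfold Unb at hb
    push Not at hb
    obtain ⟨b, hb⟩ := hb
    obtain ⟨P', h1, h2⟩ := basis hc ho hW hB hG (hB Ψ hΨ D hD b) ⟨P, by
      unfold oB
      rw [hP, Set.empty_union]
      ext ν
      simp only [Set.mem_ofPred_eq, Set.mem_empty_iff_false, iff_false]
      rintro ⟨h1, h2, h3⟩
      exact hb ν.1 ν.2 h1 h2 h3⟩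
    unfold oB at h1
    refine ⟨P', (Set.union_empty_iff.mp h1).1, h2, fun hU => ?_⟩
    obtain ⟨p, q, h3, h4, h5⟩ := hU b
    have : (p, q) ∈ {ν : ℕ × ℕ | b ≤ ν.1 ∧ ν.1 < ν.2 ∧ ν ∈ Ψ (jn W P')} := ⟨h3, h4, h5⟩
    rw [(Set.union_empty_iff.mp h1).2] at this
    exact this
  · right
    push Not at hcase
    exact fun j => hits_all ho hW hG hΨ hD hcase j

/-- the ground lemma -/
theorem ground1 {𝒞 : Set Opr} (hc : 𝒞.Countable) (ho : ∀ Ψ ∈ 𝒞, OpenO Ψ) :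
    ∃ (f : ℕ → ℕ → Bool) (g : ℕ → Bool), (∀ x, ∃ N, ∀ y, N ≤ y → f x y = g x) ∧
      Gd 𝒞 g (code f) := by
  let lift : Opr → Oper := fun Ψ W => {ν | ∃ p q, ν = [(p, q)] ∧ (p, q) ∈ Ψ W}
  obtain ⟨f, g, h1, h2⟩ := ground (𝒞 := lift '' 𝒞) (hc.image _) (by
    rintro _ ⟨Ψ, hΨ, rfl⟩ W ν ⟨p, q, rfl, h⟩
    obtain ⟨n, hn⟩ := ho Ψ hΨ W _ h
    exact ⟨n, fun W' hW' => ⟨p, q, rfl, hn W' hW'⟩⟩)
  refine ⟨f, g, h1, ?_⟩
  intro Ψ hΨ j hU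
  have h3 := h2 (lift Ψ) ⟨Ψ, hΨ, rfl⟩ (if j = true then {(0, 1)} else ∅) 1 (by
    intro a b c hab hbc hc
    omega)
  have hpat : pat (if j = true then {(0, 1)} else ∅) 0 1 = j := by
    cases j <;> simp [pat]
  obtain ⟨ν, hν, hl, hPR⟩ := h3 (by
    intro ν hνl _ _ b
    have : ν = [] := List.length_eq_zero_iff.mp (by omega)
    subst this
    obtain ⟨p, q, a1, a2, a3⟩ := hU b
    exact ⟨p, q, a1, a2, p, q, rfl, a3⟩)
  rcases hν with h | ⟨p, q, rfl, h⟩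
  · rw [h] at hl; simp at hl
  · refine ⟨p, q, ?_, h, ?_⟩
    · exact hPR.lt 0 (by simp)
    · intro x hx1 hx2
      have := hPR.lim 0 (by simp) x hx1 hx2
      rw [this]
      exact hpat

end Pool.Agent.HT2
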