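import Mathlib

/-!
An idempotent ultrafilter on `(ℕ, +)` in a minimal left ideal.
-/

namespace Pool.Agent.HT2

open Filter

attribute [local instance] Ultrafilter.add Ultrafilter.addSemigroup

/-- closed left ideals -/
def LI (L : Set (Ultrafilter ℕ)) : Prop := IsClosed L ∧ L.Nonempty ∧ ∀ u, ∀ q ∈ L, u + q ∈ L

lemma exists_min_LI : ∃ L, Minimal (· ∈ {L : Set (Ultrafilter ℕ) | LI L}) L := by
  refine zorn_superset _ fun c hcs hc => ?_
  refine
    ⟨⋂₀ c, ⟨isClosed_sInter fun t ht => (hcs ht).1, ?_, fun u q hq => ?_⟩, fun s hs =>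
      Set.sInter_subset_of_mem hs⟩
  · obtain rfl | hcnemp := c.eq_empty_or_nonempty
    · rw [Set.sInter_empty]
      apply Set.univ_nonempty
    convert!
      @IsCompact.nonempty_iInter_of_directed_nonempty_isCompact_isClosed _ _ _ hcnemp.coe_sort
        ((↑) : c → Set (Ultrafilter ℕ)) ?_ ?_ ?_ ?_
    · exact Set.sInter_eq_iInter
    · refine DirectedOn.directed_val (IsChain.directedOn hc.symm)
    exacts [fun i => (hcs i.prop).2.1, fun i => (hcs i.prop).1.isCompact, fun i => (hcs i.prop).1]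
  · rw [Set.mem_sInter]
    exact fun t ht => (hcs ht).2.2 u q (Set.mem_sInter.mp hq t ht)

/-- syndetic with gap `g` -/
def Synd (g : ℕ) (D : Set ℕ) : Prop := ∀ n, ∃ x ∈ D, n ≤ x ∧ x ≤ n + g

/-- the star operation -/
def st (p : Ultrafilter ℕ) (A : Set ℕ) : Set ℕ := {x | ∀ᶠ z in (p : Filter ℕ), x + z ∈ A}

/-- idempotent in a minimal ideal -/
structure Idm (p : Ultrafilter ℕ) : Prop where
  idem : ∀ A, (∀ᶠ z in (p : Filter ℕ), z ∈ st p A) ↔ ∀ᶠ z in (p : Filter ℕ), z ∈ A
  synd : ∀ A, (∀ᶠ z in (p : Filter ℕ), z ∈ A) → ∃ g, Synd g (st p A)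

theorem exists_Idm : ∃ p, Idm p := by
  obtain ⟨L, hL⟩ := exists_min_LI
  obtain ⟨hcl, hne, hid⟩ := hL.prop
  obtain ⟨p, hpL, hp⟩ := exists_idempotent_in_compact_add_subsemigroup
    (Ultrafilter.continuous_add_left (M := ℕ)) L hne hcl.isCompact (fun x _ y hy => hid x y hy)
  refine ⟨p, ?_, ?_⟩
  · intro A
    have : (∀ᶠ z in ((p + p : Ultrafilter ℕ) : Filter ℕ), z ∈ A) ↔
        ∀ᶠ m in (p : Filter ℕ), ∀ᶠ m' in (p : Filter ℕ), m + m' ∈ A :=
      Ultrafilter.eventually_add p p (· ∈ A)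
    rw [hp] at this
    exact this.symm
  · intro A hA
    by_contra hcon
    push Not at hcon
    have hcon' : ∀ g, ∃ n, ∀ x, n ≤ x → x ≤ n + g → x ∉ st p A := by
      intro g
      have := hcon g
      unfold Synd at this
      push Not at this
      obtain ⟨n, hn⟩ := this
      refine ⟨n, fun x h1 h2 hx => ?_⟩
      have := hn x hx h1
      omega
    choose n hn using hcon'
    let u : Ultrafilter ℕ := Ultrafilter.map n (hyperfilter ℕ)
    have hup : u + p ∈ L := hid u p hpL
    have hL' : (· + (u + p)) '' (Set.univ : Set (Ultrafilter ℕ)) = L := by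
      apply hL.eq_of_subset
      · refine ⟨?_, ?_, ?_⟩
        · exact (Ultrafilter.continuous_add_left (u + p)).isClosedMap _ isClosed_univ
        · exact ⟨_, ⟨p, trivial, rfl⟩⟩
        · rintro v _ ⟨w, _, rfl⟩
          exact ⟨v + w, trivial, add_assoc _ _ _⟩
      · rintro _ ⟨w, _, rfl⟩
        exact hid w _ hup
    have hpm : p ∈ (· + (u + p)) '' (Set.univ : Set (Ultrafilter ℕ)) := by rw [hL']; exact hpL
    obtain ⟨w, _, hw⟩ := hpm
    have hw : w + (u + p) = p := hw
    rw [← hw] at hA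
    have hA1 := (Ultrafilter.eventually_add w (u + p) (· ∈ A)).mp hA
    obtain ⟨m, hm⟩ := hA1.exists
    have hA2 := (Ultrafilter.eventually_add u p (fun y => m + y ∈ A)).mp hm
    have hA3 : ∀ᶠ g in (hyperfilter ℕ : Filter ℕ), m + n g ∈ st p A := by
      have : ∀ᶠ x in (u : Filter ℕ), m + x ∈ st p A := by
        filter_upwards [hA2] with x hx
        filter_upwards [hx] with z hz
        rw [add_assoc]; exact hz
      exact this
    have hge : ∀ᶠ g in (hyperfilter ℕ : Filter ℕ), m ≤ g := by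
      have : ∀ᶠ g in (Filter.cofinite : Filter ℕ), m ≤ g := by
        rw [Nat.cofinite_eq_atTop]
        exact Filter.eventually_ge_atTop m
      exact hyperfilter_le_cofinite this
    obtain ⟨g, hg1, hg2⟩ := (hA3.and hge).exists
    exact hn g (m + n g) (by omega) (by omega) hg1

variable {p : Ultrafilter ℕ}

lemma st_st (hp : Idm p) (A : Set ℕ) : st p (st p A) = st p A := by
  ext x
  have h := hp.idem {z | x + z ∈ A}
  constructor
  · intro hx
    apply h.mp
    filter_upwards [hx] with z hz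
    filter_upwards [hz] with y hy
    show x + (z + y) ∈ A
    rw [← add_assoc]; exact hy
  · intro hx
    have := h.mpr hx
    filter_upwards [this] with z hz
    filter_upwards [hz] with y hy
    show x + z + y ∈ A
    rw [add_assoc]; exact hy

lemma synd_of_mem (hp : Idm p) {A : Set ℕ} {s : ℕ} (hs : s ∈ st p A) :
    ∃ g, Synd g {x | s + x ∈ st p A} := by
  obtain ⟨g, hg⟩ := hp.synd {z | s + z ∈ A} hs
  refine ⟨g, fun n => ?_⟩
  obtain ⟨x, hx, h1, h2⟩ := hg n
  refine ⟨x, ?_, h1, h2⟩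
  filter_upwards [hx] with z hz
  show s + x + z ∈ A
  rw [add_assoc]; exact hz

lemma synd_st (hp : Idm p) {A : Set ℕ} {s : ℕ} (hs : s ∈ st p A) : ∃ g, Synd g (st p A) := by
  obtain ⟨g, hg⟩ := synd_of_mem hp hs
  refine ⟨s + g, fun n => ?_⟩
  obtain ⟨x, hx, h1, h2⟩ := hg n
  exact ⟨s + x, hx, by omega, by omega⟩

lemma ge_ev (hp : Idm p) (m : ℕ) : ∀ᶠ z in (p : Filter ℕ), m ≤ z := by
  by_contra hcon
  have h : ∀ᶠ z in (p : Filter ℕ), z ∈ {z | z < m} := by
    have := Ultrafilter.eventually_not.mpr hcon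
    filter_upwards [this] with z hz
    show z < m
    omega
  obtain ⟨g, hg⟩ := hp.synd _ h
  obtain ⟨x, hx, h1, _⟩ := hg m
  obtain ⟨z, hz⟩ := hx.exists
  have hz : x + z < m := hz
  omega

lemma exists_mem_st (hp : Idm p) {g : ℕ} {D : Set ℕ} (hD : Synd g D) : ∃ x ∈ D, x ∈ st p D := by
  have h1 : ∃ t, t ∈ st p D := by
    by_contra hcon
    push Not at hcon
    have h2 : ∀ t ∈ Finset.range (g + 1), ∀ᶠ z in (p : Filter ℕ), t + z ∉ D := by
      intro t _
      exact Ultrafilter.eventually_not.mpr (hcon t)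
    have h3 := (Filter.eventually_all_finset (Finset.range (g + 1))).mpr h2
    obtain ⟨z, hz⟩ := h3.exists
    obtain ⟨x, hx, h4, h5⟩ := hD z
    apply hz (x - z) (Finset.mem_range.mpr (by omega))
    have : x - z + z = x := by omega
    rw [this]; exact hx
  obtain ⟨t, ht⟩ := h1
  have ht2 : t ∈ st p (st p D) := by rw [st_st hp]; exact ht
  obtain ⟨z, hz1, hz2⟩ := (ht.and ht2).exists
  exact ⟨t + z, hz1, hz2⟩

end Pool.Agent.HT2
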