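import Mathlib
import Pool.Agent.HT2.Basic
import Pool.Agent.HT2.Idem

/-!
The combinatorial core, colour readers, operators and maps used by the forcing.
-/

namespace Pool.Agent.HT2

open Pool.Agent.EMP Filter

/-- combinatorial core -/
theorem core {p : Ultrafilter ℕ} (hp : Idm p) {k : ℕ} {c : ℕ → ℕ} (hc : ∀ x, c x < k) {Y : Set ℕ}
    {a : ℕ} (ha : a ∈ st p Y) {Q : ℕ → Finset ℕ → Prop}
    (hQ : ∀ i < k, ∀ (W D : Set ℕ) (g : ℕ), Synd g D → (∀ x ∈ D, a + x ∈ W) →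
      ∃ x ∈ D, ∃ E : Finset ℕ, Q i E ∧ ∀ e ∈ E, e ∈ Y ∧ x + e ∈ W) :
    ∃ i < k, ∃ (E : Finset ℕ) (a' : ℕ), Q i E ∧ (∀ e ∈ E, e ∈ Y) ∧ a' ∈ st p Y ∧
      ∀ e ∈ E, a' ∈ st p {y | c (e + y) = i} := by
  have hk : 0 < k := lt_of_le_of_lt (Nat.zero_le _) (hc 0)
  obtain ⟨g0, hg0⟩ := synd_of_mem hp ha
  obtain ⟨x0, hx0, E0, hQ0, hE0⟩ := hQ 0 hk (st p Y) _ g0 hg0 (fun x hx => hx)
  by_cases hall : ∀ e ∈ E0, (a + x0) ∈ st p {y | c (e + y) = 0}
  · exact ⟨0, hk, E0, a + x0, hQ0, fun e he => (hE0 e he).1, hx0, hall⟩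
  · push Not at hall
    obtain ⟨e0, he0, hne⟩ := hall
    -- the limit colour of `e0`
    have hcol : ∃ i < k, (a + x0) ∈ st p {y | c (e0 + y) = i} := by
      by_contra hcon
      push Not at hcon
      have h2 : ∀ t ∈ Finset.range k, ∀ᶠ z in (p : Filter ℕ), ¬ c (e0 + (a + x0 + z)) = t := by
        intro t ht
        exact Ultrafilter.eventually_not.mpr (hcon t (Finset.mem_range.mp ht))
      have h3 := (Filter.eventually_all_finset (Finset.range k)).mpr h2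
      obtain ⟨z, hz⟩ := h3.exists
      exact hz _ (Finset.mem_range.mpr (hc _)) rfl
    obtain ⟨i, hik, hi⟩ := hcol
    have hx0' : x0 ∈ st p {x | c (a + e0 + x) = i ∧ e0 + x ∈ Y} := by
      have h1 : e0 + x0 ∈ st p Y := by
        have := (hE0 e0 he0).2
        rw [add_comm]; exact this
      filter_upwards [hi, h1] with z hz1 hz2
      refine ⟨?_, ?_⟩
      · have hz1 : c (e0 + (a + x0 + z)) = i := hz1
        rw [← hz1]; congr 1; ring
      · have : e0 + (x0 + z) = e0 + x0 + z := by ring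
        rw [this]; exact hz2
    obtain ⟨g1, hg1⟩ := synd_st hp hx0'
    obtain ⟨x, hx, E, hQE, hE⟩ := hQ i hik {s | ∀ᶠ z in (p : Filter ℕ), c (s + e0 + z) = i} _ g1 hg1
      (by
        intro x hx
        filter_upwards [hx] with z hz
        rw [← hz.1]; congr 1; ring)
    refine ⟨i, hik, E, e0 + x, hQE, fun e he => (hE e he).1, ?_, ?_⟩
    · filter_upwards [hx] with z hz
      have : e0 + x + z = e0 + (x + z) := by ring
      rw [this]; exact hz.2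
    · intro e he
      have := (hE e he).2
      filter_upwards [this] with z hz
      show c (e + (e0 + x + z)) = i
      rw [← hz]; congr 1; ring

/-- the colour of `x` in the `k`-colouring coded by `T` -/
def col (k : ℕ) (T : Om) (x : ℕ) : ℕ :=
  if h : ∃ j, j < k ∧ T (Nat.pair x j) = true then Nat.find h else 0

lemma col_lt {k : ℕ} (hk : 0 < k) (T : Om) (x : ℕ) : col k T x < k := by
  unfold col
  split_ifs with h
  · exact (Nat.find_spec h).1
  · exact hk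

lemma col_congr {k : ℕ} {T T' : Om} {x : ℕ}
    (h : ∀ j, j < k → T (Nat.pair x j) = T' (Nat.pair x j)) : col k T x = col k T' x := by
  have hiff : ∀ j, (j < k ∧ T (Nat.pair x j) = true) ↔ (j < k ∧ T' (Nat.pair x j) = true) := by
    intro j
    constructor
    · rintro ⟨h1, h2⟩; exact ⟨h1, by rw [← h j h1]; exact h2⟩
    · rintro ⟨h1, h2⟩; exact ⟨h1, by rw [h j h1]; exact h2⟩
  unfold col
  by_cases h1 : ∃ j, j < k ∧ T (Nat.pair x j) = true
  · have h2 : ∃ j, j < k ∧ T' (Nat.pair x j) = true := by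
      obtain ⟨j, hj⟩ := h1; exact ⟨j, (hiff j).mp hj⟩
    rw [dif_pos h1, dif_pos h2]
    apply le_antisymm
    · exact Nat.find_min' h1 ((hiff _).mpr (Nat.find_spec h2))
    · exact Nat.find_min' h2 ((hiff _).mp (Nat.find_spec h1))
  · have h2 : ¬ ∃ j, j < k ∧ T' (Nat.pair x j) = true := by
      rintro ⟨j, hj⟩; exact h1 ⟨j, (hiff j).mpr hj⟩
    rw [dif_neg h1, dif_neg h2]

/-- homogeneous finite sets -/
def HomS (k : ℕ) (T : Om) (i : ℕ) (E : Finset ℕ) : Prop :=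
  ∀ e ∈ E, ∀ e' ∈ E, e ≠ e' → col k T (e + e') = i

lemma agr_col {k : ℕ} {L : ℕ} {T T' : Om} (h : agr ((L + k + 1) ^ 2) T T') {x : ℕ} (hx : x ≤ L) :
    col k T x = col k T' x := by
  apply col_congr
  intro j hj
  apply h
  apply pair_lt_sq <;> omega

/-- bounded data of the oracle -/
lemma agr_four {L : ℕ} {V V' : Om} (h : agr (4 * L) V V') :
    agr L (ev (ev V)) (ev (ev V')) ∧ agr L (od (ev V)) (od (ev V')) ∧
      agr L (ev (od V)) (ev (od V')) ∧ agr L (od (od V)) (od (od V')) := by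
  have h1 : agr (2 * L) (ev V) (ev V') := agr_ev (agr_mono (by omega) h)
  have h2 : agr (2 * L) (od V) (od V') := agr_od (agr_mono (by omega) h)
  exact ⟨agr_ev h1, agr_od h1, agr_ev h2, agr_od h2⟩

/-- membership operator -/
def opM (Ψ : Opr) (k i : ℕ) (F : Finset ℕ) : Opr := fun V =>
  {ν | ∃ (x : ℕ) (E : Finset ℕ) (n : ℕ), od (od V) x = true ∧
    (∀ e ∈ E, od (ev V) e = true ∧ ev (od V) (x + e) = true) ∧
    HomS k (od (ev (ev V))) i E ∧ ν ∈ AtO Ψ (2 * n) (jn (ev (ev V)) (chF (F ∪ E)))}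

lemma opM_open (Ψ : Opr) (k i : ℕ) (F : Finset ℕ) : OpenO (opM Ψ k i F) := by
  rintro V ν ⟨x, E, n, h1, h2, h3, h4⟩
  let L : ℕ := E.sup id
  have hL : ∀ e ∈ E, e ≤ L := fun e he => Finset.le_sup (f := id) he
  refine ⟨4 * (x + L + n + 1 + 2 * (2 * L + k + 1) ^ 2), fun V' hV' => ?_⟩
  obtain ⟨a1, a2, a3, a4⟩ := agr_four hV'
  have hT : agr ((2 * L + k + 1) ^ 2) (od (ev (ev V))) (od (ev (ev V'))) := by
    apply agr_od
    exact agr_mono (by omega) a1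
  refine ⟨x, E, n, ?_, ?_, ?_, ?_⟩
  · rw [← a4 x (by omega)]; exact h1
  · intro e he
    have := hL e he
    rw [← a2 e (by omega), ← a3 (x + e) (by omega)]
    exact h2 e he
  · intro e he e' he' hne
    have b1 := hL e he
    have b2 := hL e' he'
    rw [← agr_col hT (by omega : e + e' ≤ 2 * L)]
    exact h3 e he e' he' hne
  · rw [← AtO_congr (agr_jn (agr_mono (by omega) a1) (agr_refl _ _))]
    exact h4

/-- the class operator: empty iff the set `D` is syndetic and `a + D ⊆ W` -/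
def opD (a g : ℕ) : Opr := fun V =>
  {_ν | (∃ n, ∀ x, n ≤ x → x ≤ n + g → od (od V) x = false) ∨
    ∃ x, od (od V) x = true ∧ ev (od V) (a + x) = false}

lemma opD_open (a g : ℕ) : OpenO (opD a g) := by
  rintro V ν (⟨n, hn⟩ | ⟨x, h1, h2⟩)
  · refine ⟨4 * (n + g + 1), fun V' hV' => Or.inl ⟨n, fun x hx1 hx2 => ?_⟩⟩
    obtain ⟨a1, a2, a3, a4⟩ := agr_four hV'
    rw [← a4 x (by omega)]
    exact hn x hx1 hx2
  · refine ⟨4 * (a + x + 1), fun V' hV' => Or.inr ⟨x, ?_, ?_⟩⟩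
    · obtain ⟨a1, a2, a3, a4⟩ := agr_four hV'
      rw [← a4 x (by omega)]; exact h1
    · obtain ⟨a1, a2, a3, a4⟩ := agr_four hV'
      rw [← a3 (a + x) (by omega)]; exact h2

lemma opD_empty {a g : ℕ} {V : Om} (h : opD a g V = ∅) :
    Synd g {x | od (od V) x = true} ∧ ∀ x, od (od V) x = true → ev (od V) (a + x) = true := by
  have h0 : ∀ ν, ν ∉ opD a g V := by intro ν; rw [h]; exact Set.notMem_empty _
  constructor
  · intro n
    by_contra hcon
    push Not at hcon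
    apply h0 (0, 0)
    left
    refine ⟨n, fun x h1 h2 => ?_⟩
    by_contra hx
    have hx' : od (od V) x = true := by simpa using hx
    have := hcon x hx' h1
    omega
  · intro x hx
    by_contra hcon
    apply h0 (0, 0)
    right
    exact ⟨x, hx, by simpa using hcon⟩

lemma empty_opD {a g : ℕ} {V : Om} (h1 : Synd g {x | od (od V) x = true})
    (h2 : ∀ x, od (od V) x = true → ev (od V) (a + x) = true) : opD a g V = ∅ := by
  ext ν
  simp only [Set.mem_empty_iff_false, iff_false]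
  rintro (⟨n, hn⟩ | ⟨x, hx1, hx2⟩)
  · obtain ⟨x, hx, hx1, hx2⟩ := h1 n
    have := hn x hx1 hx2
    have hx : od (od V) x = true := hx
    rw [hx] at this
    exact absurd this (by simp)
  · rw [h2 x hx1] at hx2
    exact absurd hx2 (by simp)

/-- composition of an operator with a map -/
def cmpO (Ψ : Opr) (S : Om → Om) : Opr := fun W => Ψ (S W)

lemma cmpO_open {Ψ : Opr} (hΨ : OpenO Ψ) {S : Om → Om} (hS : ContM S) : OpenO (cmpO Ψ S) := by
  intro W ν hν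
  obtain ⟨n, hn⟩ := hΨ (S W) ν hν
  obtain ⟨k, hk⟩ := hS W n
  exact ⟨k, fun W' hW' => hn _ (hk W' hW')⟩

lemma Gd_cmp {𝒞 : Set Opr} {g : ℕ → Bool} {W : Om} {S : Om → Om}
    (hS : ∀ Ψ ∈ 𝒞, cmpO Ψ S ∈ 𝒞) (h : Gd 𝒞 g W) : Gd 𝒞 g (S W) :=
  fun Ψ hΨ j hU => h (cmpO Ψ S) (hS Ψ hΨ) j hU

/-- thinning the reservoir, case A -/
def SA (x m : ℕ) : Om → Om := fun V =>
  jn (ev (ev V)) (fun y => od (ev V) y && (ev (od V) (x + y) && decide (m ≤ y)))

lemma SA_cont (x m : ℕ) : ContM (SA x m) := by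
  intro V n
  refine ⟨4 * (x + n), fun V' hV' => ?_⟩
  obtain ⟨a1, a2, a3, a4⟩ := agr_four hV'
  apply agr_jn' (agr_mono (by omega) a1)
  intro y hy
  beta_reduce
  rw [a2 y (by omega), a3 (x + y) (by omega)]

/-- thinning the reservoir, case B -/
def SB (E : Finset ℕ) (i k m : ℕ) : Om → Om := fun W =>
  jn (ev W) (fun y => od W y && decide (m ≤ y ∧ ∀ e ∈ E, col k (od (ev W)) (e + y) = i))

lemma SB_cont (E : Finset ℕ) (i k m : ℕ) : ContM (SB E i k m) := by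
  intro W n
  let L : ℕ := E.sup id
  have hL : ∀ e ∈ E, e ≤ L := fun e he => Finset.le_sup (f := id) he
  refine ⟨2 * (n + 2 * (L + n + k + 1) ^ 2), fun W' hW' => ?_⟩
  have h1 : agr (n + 2 * (L + n + k + 1) ^ 2) (ev W) (ev W') := agr_ev hW'
  have h2 : agr (n + 2 * (L + n + k + 1) ^ 2) (od W) (od W') := agr_od hW'
  have h3 : agr ((L + n + k + 1) ^ 2) (od (ev W)) (od (ev W')) :=
    agr_od (agr_mono (by omega) h1)
  apply agr_jn' (agr_mono (by omega) h1)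
  intro y hy
  beta_reduce
  rw [h2 y (by omega)]
  congr 1
  apply decide_eq_decide.mpr
  have key : ∀ e ∈ E, col k (od (ev W)) (e + y) = col k (od (ev W')) (e + y) := by
    intro e he
    have := hL e he
    exact agr_col (L := L + n) h3 (by omega)
  constructor
  · rintro ⟨hb, h⟩
    exact ⟨hb, fun e he => by rw [← key e he]; exact h e he⟩
  · rintro ⟨hb, h⟩
    exact ⟨hb, fun e he => by rw [key e he]; exact h e he⟩

/-- the class of operators -/
structure Cl1 (𝒞 : Set Opr) : Prop where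
  cnt : 𝒞.Countable
  op : ∀ Ψ ∈ 𝒞, OpenO Ψ
  w : ∀ Ψ ∈ 𝒞, ∀ D ∈ 𝒞, oW Ψ D ∈ 𝒞
  b : ∀ Ψ ∈ 𝒞, ∀ D ∈ 𝒞, ∀ b, oB Ψ D b ∈ 𝒞
  m : ∀ Ψ ∈ 𝒞, ∀ k i F, opM Ψ k i F ∈ 𝒞
  d : ∀ a g, opD a g ∈ 𝒞
  sa : ∀ Ψ ∈ 𝒞, ∀ x m, cmpO Ψ (SA x m) ∈ 𝒞
  sb : ∀ Ψ ∈ 𝒞, ∀ E i k m, cmpO Ψ (SB E i k m) ∈ 𝒞
  s3 : ∀ Ψ ∈ 𝒞, cmpO Ψ S3 ∈ 𝒞
  s4 : ∀ Ψ ∈ 𝒞, cmpO Ψ S4 ∈ 𝒞

lemma jn_ev_od (W : Om) : jn (ev W) (od W) = W := by
  funext n
  unfold jn ev od
  split_ifs with h
  · congr 1; omega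
  · congr 1; omega

end Pool.Agent.HT2
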