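import Mathlib
import Pool.Agent.HT2.Core

/-!
The forcing that solves an instance of Hindman's theorem for sums of exactly two elements while
preserving the pair of hyperimmune sets.
-/

namespace Pool.Agent.HT2

open Pool.Agent.EMP Filter

/-- requirements -/
abbrev Rq (𝒞 : Set Opr) := (𝒞 × Bool) ⊕ ℕ

/-- conditions -/
structure Cnd (𝒞 : Set Opr) (g : ℕ → Bool) (p : Ultrafilter ℕ) (k : ℕ) (Z : Om) where
  F : ℕ → Finset ℕ
  a : ℕ
  Y : Om
  good : Gd 𝒞 g (jn Z Y)
  res : a ∈ st p {y | Y y = true}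
  fut : ∀ i < k, ∀ f ∈ F i, ∀ y, Y y = true → f < y ∧ col k (od Z) (f + y) = i
  hom : ∀ i < k, HomS k (od Z) i (F i)

variable {𝒞 : Set Opr} {g : ℕ → Bool} {p : Ultrafilter ℕ} {k : ℕ} {Z : Om}

/-- extension -/
structure Ext (C C' : Cnd 𝒞 g p k Z) : Prop where
  sub : ∀ i, C.F i ⊆ C'.F i
  new : ∀ i, ∀ x ∈ C'.F i, x ∈ C.F i ∨ C.Y x = true
  res : ∀ y, C'.Y y = true → C.Y y = true

lemma Ext.refl (C : Cnd 𝒞 g p k Z) : Ext C C :=
  ⟨fun _ => subset_rfl, fun _ _ h => Or.inl h, fun _ h => h⟩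

lemma Ext.trans {C C' C'' : Cnd 𝒞 g p k Z} (h : Ext C C') (h' : Ext C' C'') : Ext C C'' :=
  ⟨fun i => (h.sub i).trans (h'.sub i), fun i x hx => by
    rcases h'.new i x hx with h1 | h1
    · exact h.new i x h1
    · exact Or.inr (h.res x h1), fun y hy => h.res y (h'.res y hy)⟩

/-- a requirement is forced on side `i` -/
def SatR (C : Cnd 𝒞 g p k Z) (i : ℕ) : Rq 𝒞 → Prop
  | .inl (Ψ, j) =>
    (∃ b, ∀ (E : Finset ℕ) (n u v : ℕ), (∀ e ∈ E, C.Y e = true) → HomS k (od Z) i E → b ≤ u →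
      u < v → (u, v) ∉ AtO Ψ.1 (2 * n) (jn Z (chF (C.F i ∪ E)))) ∨
    (∃ n u v, u < v ∧ (u, v) ∈ AtO Ψ.1 (2 * n) (jn Z (chF (C.F i))) ∧
      (∀ x, u ≤ x → x < v → g x = j) ∧ ∀ y, C.Y y = true → n ≤ y)
  | .inr m => ∃ f ∈ C.F i, m ≤ f

/-- good new finite sets on side `i` -/
def Qr (g : ℕ → Bool) (k : ℕ) (Z : Om) (F : ℕ → Finset ℕ) (r : ℕ → Rq 𝒞) (i : ℕ) (E : Finset ℕ) :
    Prop :=
  HomS k (od Z) i E ∧
  match r i with
  | .inl (Ψ, j) => ∃ n u v, u < v ∧ (u, v) ∈ AtO Ψ.1 (2 * n) (jn Z (chF (F i ∪ E))) ∧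
      (∀ x, u ≤ x → x < v → g x = j)
  | .inr m => ∃ e ∈ E, m ≤ e

lemma sideB (hC : Cl1 𝒞) (hp : Idm p) (hk : 0 < k) (C : Cnd 𝒞 g p k Z) (r : ℕ → Rq 𝒞)
    (hQ : ∀ i < k, ∀ (W D : Set ℕ) (g' : ℕ), Synd g' D → (∀ x ∈ D, C.a + x ∈ W) →
      ∃ x ∈ D, ∃ E : Finset ℕ, Qr g k Z C.F r i E ∧ ∀ e ∈ E, e ∈ {y | C.Y y = true} ∧ x + e ∈ W) :
    ∃ C' : Cnd 𝒞 g p k Z, Ext C C' ∧ ∃ i < k, SatR C' i (r i) := by
  classical
  obtain ⟨i, hik, E, a', hE, hEY, ha', hfut⟩ :=
    core hp (c := col k (od Z)) (fun x => col_lt hk _ x) C.res (Q := Qr g k Z C.F r) hQ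
  obtain ⟨hhom, hQi⟩ := hE
  -- choose the bound
  have hbd : ∃ n : ℕ, match r i with
      | .inl (Ψ, j) => ∃ u v, u < v ∧ (u, v) ∈ AtO Ψ.1 (2 * n) (jn Z (chF (C.F i ∪ E))) ∧
        (∀ x, u ≤ x → x < v → g x = j)
      | .inr m => ∃ e ∈ E, m ≤ e := by
    generalize r i = ρ at hQi ⊢
    rcases ρ with ⟨Ψ, j⟩ | m
    · obtain ⟨n, h⟩ := hQi
      exact ⟨n, h⟩
    · exact ⟨0, hQi⟩
  obtain ⟨n, hn⟩ := hbd
  let m' : ℕ := max n (E.sup id + 1)
  let Y' : Om := fun y => C.Y y && decide (m' ≤ y ∧ ∀ e ∈ E, col k (od Z) (e + y) = i)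
  have hY' : ∀ y, Y' y = true ↔ C.Y y = true ∧ m' ≤ y ∧ ∀ e ∈ E, col k (od Z) (e + y) = i := by
    intro y
    simp only [Y', Bool.and_eq_true, decide_eq_true_eq]
  let F' : ℕ → Finset ℕ := Function.update C.F i (C.F i ∪ E)
  have hF'i : F' i = C.F i ∪ E := Function.update_self _ _ _
  have hF'o : ∀ i', i' ≠ i → F' i' = C.F i' := fun i' h => Function.update_of_ne h _ _
  have hgood : Gd 𝒞 g (jn Z Y') := by
    have := Gd_cmp (S := SB E i k m') (fun Ψ hΨ => hC.sb Ψ hΨ E i k m') C.good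
    have heq : SB E i k m' (jn Z C.Y) = jn Z Y' := by
      unfold SB
      rw [ev_jn, od_jn]
    rw [heq] at this
    exact this
  let C' : Cnd 𝒞 g p k Z := {
    F := F'
    a := a'
    Y := Y'
    good := hgood
    res := by
      have h1 : ∀ᶠ z in (p : Filter ℕ), ∀ e ∈ E, col k (od Z) (e + (a' + z)) = i := by
        rw [Filter.eventually_all_finset]
        exact fun e he => hfut e he
      filter_upwards [ha', h1, ge_ev hp m'] with z h2 h3 h4
      exact (hY' _).mpr ⟨h2, by omega, h3⟩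
    fut := by
      intro i' hi' f hf y hy
      obtain ⟨y1, y2, y3⟩ := (hY' y).mp hy
      by_cases hii : i' = i
      · subst hii
        rw [hF'i] at hf
        rcases Finset.mem_union.mp hf with h | h
        · exact C.fut _ hi' f h y y1
        · refine ⟨?_, y3 f h⟩
          have : f ≤ E.sup id := Finset.le_sup (f := id) h
          omega
      · rw [hF'o i' hii] at hf
        exact C.fut _ hi' f hf y y1
    hom := by
      intro i' hi'
      by_cases hii : i' = i
      · subst hii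
        rw [hF'i]
        intro e he e' he' hne
        rcases Finset.mem_union.mp he with h | h <;> rcases Finset.mem_union.mp he' with h' | h'
        · exact C.hom _ hi' e h e' h' hne
        · exact (C.fut _ hi' e h e' (hEY e' h')).2
        · rw [add_comm]; exact (C.fut _ hi' e' h' e (hEY e h)).2
        · exact hhom e h e' h' hne
      · rw [hF'o i' hii]; exact C.hom _ hi' }
  refine ⟨C', ⟨?_, ?_, ?_⟩, i, hik, ?_⟩
  · intro i'
    by_cases hii : i' = i
    · subst hii
      show C.F i' ⊆ F' i'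
      rw [hF'i]; exact Finset.subset_union_left
    · show C.F i' ⊆ F' i'
      rw [hF'o i' hii]
  · intro i' x hx
    have hx : x ∈ F' i' := hx
    by_cases hii : i' = i
    · subst hii
      rw [hF'i] at hx
      rcases Finset.mem_union.mp hx with h | h
      · exact Or.inl h
      · exact Or.inr (hEY x h)
    · rw [hF'o i' hii] at hx
      exact Or.inl hx
  · intro y hy
    exact ((hY' y).mp hy).1
  · rcases hr : r i with ⟨Ψ, j⟩ | m
    · rw [hr] at hn
      right
      obtain ⟨u, v, h1, h2, h3⟩ := hn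
      refine ⟨n, u, v, h1, ?_, h3, ?_⟩
      · show (u, v) ∈ AtO Ψ.1 (2 * n) (jn Z (chF (F' i)))
        rw [hF'i]; exact h2
      · intro y hy
        have := ((hY' y).mp hy).2.1
        omega
    · rw [hr] at hn
      obtain ⟨e, he, hme⟩ := hn
      refine ⟨e, ?_, hme⟩
      show e ∈ F' i
      rw [hF'i]
      exact Finset.mem_union_right _ he

open Classical in
lemma step (hC : Cl1 𝒞) (hp : Idm p) (hk : 0 < k) (C : Cnd 𝒞 g p k Z) (r : ℕ → Rq 𝒞) :
    ∃ C' : Cnd 𝒞 g p k Z, Ext C C' ∧ ∃ i < k, SatR C' i (r i) := by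
  by_cases hA : ∃ i < k, ∃ (Ψ : 𝒞) (j : Bool) (g' : ℕ) (P : Om), r i = .inl (Ψ, j) ∧
      opD C.a g' (jn (jn Z C.Y) P) = ∅ ∧ Gd 𝒞 g (jn (jn Z C.Y) P) ∧
      ¬ Unb (opM Ψ.1 k i (C.F i) (jn (jn Z C.Y) P))
  · obtain ⟨i, hik, Ψ, j, g', P, hr, h1, h2, h3⟩ := hA
    obtain ⟨hs, hW⟩ := opD_empty h1
    rw [od_jn] at hs hW
    obtain ⟨x, hxD, hxs⟩ := exists_mem_st hp hs
    have hxD : od P x = true := hxD
    unfold Unb at h3
    push Not at h3
    obtain ⟨b, hb⟩ := h3
    let Y' : Om := fun y => C.Y y && (ev P (x + y) && decide (0 ≤ y))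
    have hY' : ∀ y, Y' y = true ↔ C.Y y = true ∧ ev P (x + y) = true := by
      intro y
      simp [Y', Bool.and_eq_true]
    have hgood : Gd 𝒞 g (jn Z Y') := by
      have := Gd_cmp (S := SA x 0) (fun Ψ hΨ => hC.sa Ψ hΨ x 0) h2
      have heq : SA x 0 (jn (jn Z C.Y) P) = jn Z Y' := by
        unfold SA
        rw [ev_jn, od_jn, ev_jn, od_jn]
      rw [heq] at this
      exact this
    let C' : Cnd 𝒞 g p k Z := {
      F := C.F
      a := C.a
      Y := Y'
      good := hgood
      res := by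
        filter_upwards [C.res, hxs] with z z1 z2
        refine (hY' _).mpr ⟨z1, ?_⟩
        have z2 : od P (x + z) = true := z2
        have := hW (x + z) z2
        have e1 : x + (C.a + z) = C.a + (x + z) := by ring
        rw [e1]; exact this
      fut := fun i' hi' f hf y hy => C.fut i' hi' f hf y ((hY' y).mp hy).1
      hom := C.hom }
    refine ⟨C', ⟨fun _ => subset_rfl, fun _ _ h => Or.inl h, fun y hy => ((hY' y).mp hy).1⟩,
      i, hik, ?_⟩
    rw [hr]
    left
    refine ⟨b, fun E n u v hE hhom hbu huv hcon => ?_⟩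
    apply hb u v hbu huv
    refine ⟨x, E, n, ?_, ?_, ?_, ?_⟩
    · rw [od_jn]; exact hxD
    · intro e he
      rw [ev_jn, od_jn, od_jn]
      exact (hY' e).mp (hE e he)
    · rw [ev_jn, ev_jn]; exact hhom
    · rw [ev_jn, ev_jn]; exact hcon
  · apply sideB hC hp hk C r
    intro i hik W D g' hD hW
    rcases hr : r i with ⟨Ψ, j⟩ | m
    · -- operator requirement
      have hd := dich (Ψ := opM Ψ.1 k i (C.F i)) (D := opD C.a g') hC.cnt hC.op hC.w hC.b C.good
        (hC.m Ψ.1 Ψ.2 k i (C.F i)) (hC.d C.a g')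
      rcases hd with h | h
      · exact absurd ⟨i, hik, Ψ, j, g', h.choose, hr, h.choose_spec⟩ hA
      · let P : Om := jn (fun x => decide (x ∈ W)) (fun x => decide (x ∈ D))
        have hP : opD C.a g' (jn (jn Z C.Y) P) = ∅ := by
          apply empty_opD
          · rw [od_jn, od_jn]
            intro n
            obtain ⟨x, hx, hx1⟩ := hD n
            exact ⟨x, by simpa using hx, hx1⟩
          · rw [od_jn, od_jn, ev_jn]
            intro x hx
            have hx : x ∈ D := by simpa using hx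
            simpa using hW x hx
        obtain ⟨u, v, huv, ⟨x, E, n, h1, h2, h3, h4⟩, hcol⟩ := h j P hP
        rw [od_jn, od_jn] at h1
        rw [ev_jn, od_jn, od_jn, ev_jn] at h2
        rw [ev_jn, ev_jn] at h3 h4
        refine ⟨x, by simpa using h1, E, ⟨h3, ?_⟩, ?_⟩
        · rw [hr]
          exact ⟨n, u, v, huv, h4, hcol⟩
        · intro e he
          exact ⟨(h2 e he).1, by simpa using (h2 e he).2⟩
    · -- infinity requirement
      obtain ⟨x, hxD, hxs⟩ := exists_mem_st hp hD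
      obtain ⟨z, z1, z2, z3⟩ := (C.res.and (hxs.and (ge_ev hp m))).exists
      refine ⟨x, hxD, {C.a + z}, ⟨?_, ?_⟩, ?_⟩
      · intro e he e' he' hne
        rw [Finset.mem_singleton] at he he'
        exact absurd (he.trans he'.symm) hne
      · rw [hr]
        exact ⟨C.a + z, Finset.mem_singleton_self _, by omega⟩
      · intro e he
        rw [Finset.mem_singleton] at he
        subst he
        refine ⟨z1, ?_⟩
        have e1 : x + (C.a + z) = C.a + (x + z) := by ring
        rw [e1]; exact hW _ z2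

open Classical in
/-- one instance of Hindman's theorem for sums of exactly two elements -/
theorem ht2 (hC : Cl1 𝒞) (hp : Idm p) (hk : 0 < k) (hG : Gd 𝒞 g Z) :
    ∃ i < k, ∃ G : Om, {x | G x = true}.Infinite ∧
      (∀ x y, G x = true → G y = true → x ≠ y → col k (od Z) (x + y) = i) ∧ Gd 𝒞 g (jn Z G) := by
  have : Countable 𝒞 := hC.cnt.to_subtype
  obtain ⟨e, he⟩ := exists_surjective_nat (Fin k → Rq 𝒞)
  let C0 : Cnd 𝒞 g p k Z := {
    F := fun _ => ∅
    a := 0
    Y := fun _ => true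
    good := Gd_cmp (S := S3) hC.s3 hG
    res := Filter.Eventually.of_forall (fun _ => rfl)
    fut := fun i _ f hf => absurd hf (Finset.notMem_empty _)
    hom := fun i _ f hf => absurd hf (Finset.notMem_empty _) }
  let r : ℕ → ℕ → Rq 𝒞 := fun n i => if h : i < k then e n ⟨i, h⟩ else .inr 0
  choose nxt hx1 hx2 using fun (C : Cnd 𝒞 g p k Z) (n : ℕ) => step hC hp hk C (r n)
  let S : ℕ → Cnd 𝒞 g p k Z := fun n => Nat.rec C0 (fun n C => nxt C n) n
  have hS1 : ∀ n, Ext (S n) (S (n + 1)) := fun n => hx1 (S n) n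
  have hS2 : ∀ n, ∃ i < k, SatR (S (n + 1)) i (r n i) := fun n => hx2 (S n) n
  have hmono : ∀ n m, n ≤ m → Ext (S n) (S m) := by
    intro n m h
    induction h with
    | refl => exact Ext.refl _
    | step _ ih => exact ih.trans (hS1 _)
  have hside : ∃ i < k, ∀ ρ : Rq 𝒞, ∃ n, SatR (S n) i ρ := by
    by_contra hcon
    push Not at hcon
    choose ρ hρ using hcon
    obtain ⟨n, hn⟩ := he (fun i => ρ i.1 i.2)
    obtain ⟨i, hik, hi⟩ := hS2 n
    have : r n i = ρ i hik := by
      simp only [r, hik, dif_pos, hn]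
    rw [this] at hi
    exact hρ i hik (n + 1) hi
  obtain ⟨i, hik, hi⟩ := hside
  let G : Om := fun x => decide (∃ n, x ∈ (S n).F i)
  have hGx : ∀ x, G x = true ↔ ∃ n, x ∈ (S n).F i := fun x => by simp [G]
  have hnew : ∀ n x, G x = true → x ∈ (S n).F i ∨ (S n).Y x = true := by
    intro n x hx
    obtain ⟨m, hm⟩ := (hGx x).mp hx
    rcases le_total m n with h | h
    · exact Or.inl ((hmono m n h).sub i hm)
    · exact (hmono n m h).new i x hm
  have hhom : ∀ x y, G x = true → G y = true → x ≠ y → col k (od Z) (x + y) = i := by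
    intro x y hx hy hne
    obtain ⟨n, hn⟩ := (hGx x).mp hx
    obtain ⟨m, hm⟩ := (hGx y).mp hy
    exact (S (max n m)).hom i hik x ((hmono _ _ (le_max_left n m)).sub i hn) y
      ((hmono _ _ (le_max_right n m)).sub i hm) hne
  refine ⟨i, hik, G, ?_, hhom, ?_⟩
  · intro hfin
    obtain ⟨M, hM⟩ := hfin.bddAbove
    obtain ⟨n, f, hf, hfm⟩ := hi (.inr (M + 1))
    have := hM ((hGx f).mpr ⟨n, hf⟩)
    omega
  · intro Ψ hΨ j hU
    obtain ⟨n, h | h⟩ := hi (.inl (⟨Ψ, hΨ⟩, j))
    · exfalso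
      obtain ⟨b, hb⟩ := h
      obtain ⟨u, v, hbu, huv, hmem⟩ := hU b
      obtain ⟨N, hN⟩ := exists_AtO (hC.op Ψ hΨ) hmem
      let E : Finset ℕ := (Finset.range N).filter (fun x => G x = true ∧ (S n).Y x = true)
      have hE : ∀ x ∈ E, G x = true ∧ (S n).Y x = true := fun x hx =>
        (Finset.mem_filter.mp hx).2
      apply hb E N u v (fun x hx => (hE x hx).2) ?_ hbu huv
      · have hagr : agr (2 * N) (jn Z G) (jn Z (chF ((S n).F i ∪ E))) := by
          apply agr_jn (agr_refl _ _)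
          intro x hx
          unfold chF
          by_cases hGx' : G x = true
          · rw [hGx']
            symm
            rw [decide_eq_true_eq, Finset.mem_union]
            rcases hnew n x hGx' with h1 | h1
            · exact Or.inl h1
            · exact Or.inr (Finset.mem_filter.mpr ⟨Finset.mem_range.mpr hx, hGx', h1⟩)
          · have hGf : G x = false := by simpa using hGx'
            rw [hGf]
            symm
            rw [decide_eq_false_iff_not, Finset.mem_union]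
            rintro (h1 | h1)
            · exact hGx' ((hGx x).mpr ⟨n, h1⟩)
            · exact hGx' (hE x h1).1
        rw [← AtO_congr hagr]
        exact AtO_mono (by omega) _ hN
      · intro x hx y hy hne
        exact hhom x y (hE x hx).1 (hE y hy).1 hne
    · obtain ⟨n', u, v, huv, hmem, hcol, hfut⟩ := h
      refine ⟨u, v, huv, ?_, hcol⟩
      have hagr : agr (2 * n') (jn Z G) (jn Z (chF ((S n).F i))) := by
        apply agr_jn (agr_refl _ _)
        intro x hx
        unfold chF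
        by_cases hGx' : G x = true
        · rw [hGx']
          symm
          rw [decide_eq_true_eq]
          rcases hnew n x hGx' with h1 | h1
          · exact h1
          · have := hfut x h1; omega
        · have hGf : G x = false := by simpa using hGx'
          rw [hGf]
          symm
          rw [decide_eq_false_iff_not]
          intro h1
          exact hGx' ((hGx x).mpr ⟨n, h1⟩)
      rw [← AtO_congr hagr] at hmem
      exact AtO_sub hmem

end Pool.Agent.HT2
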