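import Mathlib
import Pool.Agent.HT2.Force
import Pool.Agent.EMP.Model

/-!
A countable class of open operators with all the closure properties, and the iteration.
-/

namespace Pool.Agent.HT2

open Pool.Agent.EMP Filter

/-- levels of the closure -/
def levO {ι : Type} (ops : ι → Opr → Opr → Opr) (base : Opr) : ℕ → Set Opr
  | 0 => {base}
  | n + 1 => levO ops base n ∪
      (fun t : ι × Opr × Opr => ops t.1 t.2.1 t.2.2) '' {t | t.2.1 ∈ levO ops base n ∧ t.2.2 ∈ levO ops base n}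

lemma exists_closureO {ι : Type} [Countable ι] (ops : ι → Opr → Opr → Opr) (base : Opr)
    (hbase : OpenO base) (hops : ∀ i a b, OpenO a → OpenO b → OpenO (ops i a b)) :
    ∃ 𝒞 : Set Opr, 𝒞.Countable ∧ base ∈ 𝒞 ∧ (∀ Ψ ∈ 𝒞, OpenO Ψ) ∧
      ∀ i, ∀ a ∈ 𝒞, ∀ b ∈ 𝒞, ops i a b ∈ 𝒞 := by
  have hmono : ∀ n m, n ≤ m → levO ops base n ⊆ levO ops base m := by
    intro n m h
    induction h with
    | refl => exact subset_rfl
    | step _ ih => exact ih.trans Set.subset_union_left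
  refine ⟨⋃ n, levO ops base n, ?_, ?_, ?_, ?_⟩
  · apply Set.countable_iUnion
    intro n
    induction n with
    | zero => exact Set.countable_singleton _
    | succ n ih =>
      apply Set.Countable.union ih
      apply Set.Countable.image
      have : {t : ι × Opr × Opr | t.2.1 ∈ levO ops base n ∧ t.2.2 ∈ levO ops base n} =
          Set.univ ×ˢ (levO ops base n ×ˢ levO ops base n) := by
        ext t; simp
      rw [this]
      exact (Set.countable_univ).prod (ih.prod ih)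
  · exact Set.mem_iUnion.mpr ⟨0, rfl⟩
  · intro Ψ hΨ
    obtain ⟨n, hn⟩ := Set.mem_iUnion.mp hΨ
    clear hΨ
    induction n generalizing Ψ with
    | zero => rw [Set.mem_singleton_iff.mp hn]; exact hbase
    | succ n ih =>
      rcases hn with h | ⟨t, ⟨h1, h2⟩, rfl⟩
      · exact ih Ψ h
      · exact hops _ _ _ (ih _ h1) (ih _ h2)
  · intro i a ha b hb
    obtain ⟨n, hn⟩ := Set.mem_iUnion.mp ha
    obtain ⟨m, hm⟩ := Set.mem_iUnion.mp hb
    refine Set.mem_iUnion.mpr ⟨max n m + 1, Or.inr ⟨(i, a, b), ⟨?_, ?_⟩, rfl⟩⟩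
    · exact hmono _ _ (le_max_left _ _) hn
    · exact hmono _ _ (le_max_right _ _) hm

/-- substitution of a Turing functional -/
def oT (Ψ : Opr) (e : Cd) : Opr := fun Y =>
  {ν | ∃ u, ∃ R : Finset ℕ, (∀ i, i < u → Ev Y e i (if i ∈ R then 1 else 0)) ∧
    ν ∈ AtO Ψ (2 * u) (jn Y (chF R))}

lemma oT_open (Ψ : Opr) (e : Cd) : OpenO (oT Ψ e) := by
  rintro Y ν ⟨u, R, h1, h2⟩
  have hall : ∀ i, ∃ n, i < u → ∀ Y', agr n Y Y' → Ev Y' e i (if i ∈ R then 1 else 0) := by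
    intro i
    by_cases hi : i < u
    · obtain ⟨n, hn⟩ := Ev_use e Y i _ (h1 i hi)
      exact ⟨n, fun _ => hn⟩
    · exact ⟨0, fun h => absurd h hi⟩
  choose nf hnf using hall
  refine ⟨max u ((Finset.range u).sup nf), fun Y' hY' => ⟨u, R, ?_, ?_⟩⟩
  · intro i hi
    apply hnf i hi
    apply agr_mono _ hY'
    exact le_trans (Finset.le_sup (f := nf) (Finset.mem_range.mpr hi)) (le_max_right _ _)
  · rw [← AtO_congr (agr_jn (agr_mono (le_max_left _ _) hY') (agr_refl _ _))]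
    exact h2

lemma Gd_T {𝒞 : Set Opr} (ho : ∀ Ψ ∈ 𝒞, OpenO Ψ) (hT : ∀ Ψ ∈ 𝒞, ∀ e, oT Ψ e ∈ 𝒞)
    {g : ℕ → Bool} {Y T : Om} (hG : Gd 𝒞 g Y) (h : TLE T Y) :
    Gd 𝒞 g (jn Y T) := by
  obtain ⟨e, he⟩ := exists_code h
  intro Ψ hΨ j
  have heq : oT Ψ e Y = Ψ (jn Y T) := by
    ext ν
    constructor
    · rintro ⟨u, R, h1, h2⟩
      apply h2
      apply agr_jn (agr_refl _ _)
      intro i hi
      have h3 := (he i _).mpr (h1 i hi)
      unfold orc at h3
      rw [Part.mem_some_iff] at h3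
      by_cases hiR : i ∈ R
      · simp only [hiR, if_true] at h3
        simp only [chF, hiR, decide_true]
        cases hTi : T i
        · rw [hTi] at h3; simp at h3
        · rfl
      · simp only [hiR, if_false] at h3
        simp only [chF, hiR, decide_false]
        cases hTi : T i
        · rfl
        · rw [hTi] at h3; simp at h3
    · intro hν
      obtain ⟨n, hn⟩ := exists_AtO (ho Ψ hΨ) hν
      refine ⟨n, (Finset.range n).filter (fun i => T i = true), ?_, ?_⟩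
      · intro i hi
        apply (he i _).mp
        unfold orc
        rw [Part.mem_some_iff]
        simp [hi]
      · rw [← AtO_congr (W := jn Y T)]
        · exact AtO_mono (by omega) _ hn
        · apply agr_jn (agr_refl _ _)
          intro i hi
          simp [chF, hi]
  have h1 := hG (oT Ψ e) (hT Ψ hΨ e) j
  rw [heq] at h1
  exact h1

/-- singletons from the odd part of the oracle -/
def oH : Opr := fun Y => {ν | ν.2 = ν.1 + 1 ∧ od Y ν.1 = true}

lemma oH_open : OpenO oH := by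
  rintro Y ν ⟨h1, h2⟩
  refine ⟨2 * ν.1 + 2, fun Y' hY' => ⟨h1, ?_⟩⟩
  have : od Y' ν.1 = od Y ν.1 := (hY' (2 * ν.1 + 1) (by omega)).symm
  rw [this]; exact h2

/-- index type of the closure operations -/
abbrev IxO : Type :=
  Unit ⊕ ℕ ⊕ (ℕ × ℕ × Finset ℕ) ⊕ (ℕ × ℕ) ⊕ (ℕ × ℕ) ⊕ (Finset ℕ × ℕ × ℕ × ℕ) ⊕ Unit ⊕ Unit ⊕ Cd

/-- the closure operations -/
def allOpsO : IxO → Opr → Opr → Opr
  | .inl _ => fun a b => oW a b
  | .inr (.inl b') => fun a b => oB a b b'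
  | .inr (.inr (.inl (k, i, F))) => fun a _ => opM a k i F
  | .inr (.inr (.inr (.inl (a', g)))) => fun _ _ => opD a' g
  | .inr (.inr (.inr (.inr (.inl (x, m))))) => fun a _ => cmpO a (SA x m)
  | .inr (.inr (.inr (.inr (.inr (.inl (E, i, k, m)))))) => fun a _ => cmpO a (SB E i k m)
  | .inr (.inr (.inr (.inr (.inr (.inr (.inl _)))))) => fun a _ => cmpO a S3
  | .inr (.inr (.inr (.inr (.inr (.inr (.inr (.inl _))))))) => fun a _ => cmpO a S4
  | .inr (.inr (.inr (.inr (.inr (.inr (.inr (.inr e))))))) => fun a _ => oT a e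

theorem exists_Cl1 : ∃ 𝒞 : Set Opr, Cl1 𝒞 ∧ oH ∈ 𝒞 ∧ ∀ Ψ ∈ 𝒞, ∀ e, oT Ψ e ∈ 𝒞 := by
  obtain ⟨𝒞, h1, h2, h3, h4⟩ := exists_closureO allOpsO oH oH_open (by
    intro i a b ha hb
    match i with
    | .inl _ => exact oW_open a b
    | .inr (.inl b') => exact oB_open ha hb b'
    | .inr (.inr (.inl (k, i, F))) => exact opM_open a k i F
    | .inr (.inr (.inr (.inl (a', g)))) => exact opD_open a' g
    | .inr (.inr (.inr (.inr (.inl (x, m))))) => exact cmpO_open ha (SA_cont x m)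
    | .inr (.inr (.inr (.inr (.inr (.inl (E, i, k, m)))))) => exact cmpO_open ha (SB_cont E i k m)
    | .inr (.inr (.inr (.inr (.inr (.inr (.inl _)))))) => exact cmpO_open ha S3_cont
    | .inr (.inr (.inr (.inr (.inr (.inr (.inr (.inl _))))))) => exact cmpO_open ha S4_cont
    | .inr (.inr (.inr (.inr (.inr (.inr (.inr (.inr e))))))) => exact oT_open a e)
  refine ⟨𝒞, ⟨h1, h3, ?_, ?_, ?_, ?_, ?_, ?_, ?_, ?_⟩, h2, ?_⟩
  · exact fun Ψ hΨ D hD => h4 (.inl ()) Ψ hΨ D hD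
  · exact fun Ψ hΨ D hD b => h4 (.inr (.inl b)) Ψ hΨ D hD
  · exact fun Ψ hΨ k i F => h4 (.inr (.inr (.inl (k, i, F)))) Ψ hΨ Ψ hΨ
  · exact fun a g => h4 (.inr (.inr (.inr (.inl (a, g))))) _ h2 _ h2
  · exact fun Ψ hΨ x m => h4 (.inr (.inr (.inr (.inr (.inl (x, m)))))) Ψ hΨ Ψ hΨ
  · exact fun Ψ hΨ E i k m =>
      h4 (.inr (.inr (.inr (.inr (.inr (.inl (E, i, k, m))))))) Ψ hΨ Ψ hΨ
  · exact fun Ψ hΨ => h4 (.inr (.inr (.inr (.inr (.inr (.inr (.inl ()))))))) Ψ hΨ Ψ hΨ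
  · exact fun Ψ hΨ => h4 (.inr (.inr (.inr (.inr (.inr (.inr (.inr (.inl ())))))))) Ψ hΨ Ψ hΨ
  · exact fun Ψ hΨ e => h4 (.inr (.inr (.inr (.inr (.inr (.inr (.inr (.inr e)))))))) Ψ hΨ Ψ hΨ

lemma enum_nat_TLE (a : Om) :
    ∃ e : ℕ → ℕ × Om, (∀ n, TLE (e n).2 a) ∧ ∀ t : ℕ × Om, TLE t.2 a → ∃ n, e n = t := by
  obtain ⟨e, h1, h2⟩ := enum_TLE a
  refine ⟨fun n => (n.unpair.1, e n.unpair.2), fun n => h1 _, ?_⟩
  rintro ⟨k, t⟩ ht
  obtain ⟨m, hm⟩ := h2 t ht
  refine ⟨Nat.pair k m, ?_⟩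
  simp [hm]

/-- both colours of `g` occur in every infinite set computable from a good oracle -/
lemma both {𝒞 : Set Opr} {g : ℕ → Bool} (hH : oH ∈ 𝒞) {Y H : Om}
    (hG : Gd 𝒞 g (jn Y H)) (hinf : {x | H x = true}.Infinite) (j : Bool) :
    ∃ x, H x = true ∧ g x = j := by
  obtain ⟨p, q, h1, ⟨h2, h3⟩, h4⟩ := hG oH hH j (by
    intro b
    obtain ⟨x, hx, hxb⟩ := hinf.exists_gt b
    exact ⟨x, x + 1, hxb.le, by omega, rfl, by rw [od_jn]; exact hx⟩)
  rw [od_jn] at h3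
  exact ⟨p, h3, h4 p le_rfl h1⟩

theorem model : ∃ (f : ℕ → ℕ → Bool) (g : ℕ → Bool) (W : ℕ → Om),
    (∀ x, ∃ N, ∀ y, N ≤ y → f x y = g x) ∧ W 0 = code f ∧
    (∀ n, TLE (W n) (W (n + 1))) ∧
    (∀ n k t, 0 < k → TLE t (W n) → ∃ m G, ∃ i < k, TLE G (W m) ∧ {x | G x = true}.Infinite ∧
      ∀ x y, G x = true → G y = true → x ≠ y → col k t (x + y) = i) ∧
    (∀ n H, TLE H (W n) → {x | H x = true}.Infinite → ∀ j, ∃ x, H x = true ∧ g x = j) := by
  obtain ⟨𝒞, hC, hH, hT⟩ := exists_Cl1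
  obtain ⟨p, hp⟩ := exists_Idm
  obtain ⟨f, g, hst, hG0⟩ := ground1 hC.cnt hC.op
  obtain ⟨W, h1, h2, h3, h4⟩ := bookkeeping (α := Om) (β := ℕ × Om) (Gd 𝒞 g) TLE TLE.refl
    (fun _ _ _ h h' => TLE.trans h h') (fun a t => TLE t.2 a) (fun a a' t h h' => TLE.trans h' h)
    (fun a t => 0 < t.1 → ∃ G, ∃ i < t.1, TLE G a ∧ {x | G x = true}.Infinite ∧
      ∀ x y, G x = true → G y = true → x ≠ y → col t.1 t.2 (x + y) = i)
    (by
      rintro a ⟨k, t⟩ ha ht
      by_cases hk : 0 < k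
      · have g1 := Gd_T hC.op hT ha ht
        obtain ⟨i, hik, G, g2, g3, g4⟩ := ht2 hC hp hk g1
        have g5 : Gd 𝒞 g (jn a G) := by
          have := Gd_cmp (S := S4) hC.s4 g4
          have heq : S4 (jn (jn a t) G) = jn a G := by
            unfold S4; rw [ev_jn, ev_jn, od_jn]
          rw [heq] at this; exact this
        refine ⟨jn a G, g5, TLE_left a G, fun _ => ⟨G, i, hik, TLE_right a G, g2, ?_⟩⟩
        intro x y hx hy hne
        have := g3 x y hx hy hne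
        rw [od_jn] at this
        exact this
      · exact ⟨a, ha, TLE.refl a, fun h => absurd h hk⟩)
    enum_nat_TLE (code f) hG0
  refine ⟨f, g, W, hst, h1, h3, ?_, ?_⟩
  · intro n k t hk ht
    obtain ⟨m, hm⟩ := h4 n (k, t) ht
    obtain ⟨G, i, hi, hG⟩ := hm hk
    exact ⟨m, G, i, hi, hG⟩
  · intro n H hH' hinf j
    exact both hH (Gd_T hC.op hT (h2 n) hH') hinf j

end Pool.Agent.HT2
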